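import Pool.Agent.L5helper68.BS.Main

/-! One degree is enough for the conjecture of Beilinson and Soulé. -/

set_option autoImplicit false

open CategoryTheory AlgebraicGeometry Opposite MvPolynomial Pool.Agent.L5helper68.BS

namespace Pool.Agent.L5helper66.BS

variable {H : ℤ → ℤ → Scheme.{0}ᵒᵖ ⥤ AddCommGrpCat.{0}}

/-- degree `k + 1`, weight `j + 1` of the field `ℚ(t_1, t_2, …)` gives degree `k`, weight `j` of all
fields of characteristic zero -/
lemma field_of_qInf (hH : IsMotivicCohomology H) {k j : ℤ} (h : Zero H (k + 1) (j + 1) (Sp QInf))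
    (F : Type) [Field F] [CharZero F] : Zero H k j (Sp F) :=
  field_of_qn hH (fun m => qn_of_qInf hH h m) F

instance : CharZero QInf :=
  charZero_of_injective_algebraMap
    (R := MvPolynomial ℕ ℚ) (IsFractionRing.injective (MvPolynomial ℕ ℚ) QInf)

/-- going down along a diagonal -/
lemma diag (hH : IsMotivicCohomology H) (c : ℤ) (h : Zero H 0 c (Sp QInf)) (s : ℕ) :
    ∀ (F : Type) [Field F] [CharZero F], Zero H (-((s : ℤ) + 1)) (c - ((s : ℤ) + 1)) (Sp F) := by
  induction s with
  | zero =>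
    intro F _ _
    refine field_of_qInf hH ?_ F
    have e1 : -(((0 : ℕ) : ℤ) + 1) + 1 = 0 := by simp
    have e2 : c - (((0 : ℕ) : ℤ) + 1) + 1 = c := by simp
    rw [e1, e2]
    exact h
  | succ s ih =>
    intro F _ _
    refine field_of_qInf hH ?_ F
    have e1 : -(((s + 1 : ℕ) : ℤ) + 1) + 1 = -((s : ℤ) + 1) := by push_cast; ring
    have e2 : c - (((s + 1 : ℕ) : ℤ) + 1) + 1 = c - ((s : ℤ) + 1) := by push_cast; ring
    rw [e1, e2]
    exact ih QInf

/-- a diagonal, for fields -/
theorem diag_tfae (hH : IsMotivicCohomology H) (c : ℤ) (hc : 0 < c) : List.TFAE [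
    Zero H (-1) (c - 1) (Sp ℂ),
    Zero H 0 c (Sp QInf),
    ∀ s : ℕ, 1 ≤ s → ∀ (F : Type) [Field F] [CharZero F], Zero H (-(s : ℤ)) (c - s) (Sp F)] := by
  tfae_have 1 → 2 := by
    intro h
    refine qInf_of_qn hH fun m => ?_
    have := qn_of_field hH (k := -1) (j := c - 1) (by omega) (by omega)
      (fun F _ _ => field_of_complex hH h F) m
    rw [show (-1 : ℤ) + 1 = 0 by norm_num, sub_add_cancel] at this
    exact this
  tfae_have 2 → 3 := by
    intro h s hs F _ _
    obtain ⟨s, rfl⟩ := Nat.exists_eq_succ_of_ne_zero (by omega : s ≠ 0)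
    have := diag hH c h s F
    have e : ((s.succ : ℕ) : ℤ) = (s : ℤ) + 1 := by push_cast; ring
    rw [e]
    exact this
  tfae_have 3 → 1 := by
    intro h
    have := h 1 le_rfl ℂ
    simpa using this
  tfae_finish

variable (H) in
/-- `H^0(U, ℚ(j)) = 0` for all `j > 0` for the open subvarieties `U = {t : det M(t) ≠ 0}` of the
affine spaces over `ℚ`, where the entries of the square matrix `M` are `0`, `1`, `-1` or variables -/
def ZeroOnSections : Prop :=
  ∀ (m N : ℕ) (M : Matrix (Fin N) (Fin N) (MvPolynomial (Fin m) ℚ)),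
    (∀ a b, IsEntry (M a b)) → M.det ≠ 0 →
    ∀ j : ℤ, 0 < j → Zero H 0 j (Sp (Localization.Away M.det))

/-- all fields, all negative degrees -/
lemma fields (hH : IsMotivicCohomology H) (h : ∀ j : ℤ, 0 < j → Zero H 0 j (Sp QInf)) :
    ∀ k j : ℤ, k < 0 → ∀ (F : Type) [Field F] [CharZero F], Zero H k j (Sp F) := by
  intro k j hk F _ _
  rcases lt_or_ge j 0 with h0 | h0
  · exact hH.negative k j F h0
  obtain ⟨s, hs⟩ : ∃ s : ℕ, (s : ℤ) = -k := ⟨(-k).toNat, by omega⟩
  have := ((diag_tfae hH (j + s) (by omega)).out 1 2 rfl rfl).1 (h _ (by omega)) s (by omega) F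
  rw [show -(s : ℤ) = k by omega, add_sub_cancel_right] at this
  exact this

/-- **One degree.** -/
theorem one_degree (hH : IsMotivicCohomology H) : List.TFAE [
    ∀ J : ℤ, BSProjective H J,
    ∀ J : ℤ, BSSmooth H J,
    ∀ j : ℤ, 2 ≤ j → Zero H (-1) j (Sp ℂ),
    ∀ j : ℤ, 3 ≤ j → Zero H 0 j (Sp QInf),
    ZeroOnSections H] := by
  have low : ∀ j : ℤ, j ≤ 1 → Zero H (-1) j (Sp ℂ) := by
    intro j hj
    rcases lt_or_ge j 0 with h0 | h0
    · exact hH.negative _ j ℂ h0
    · rcases (show j = 0 ∨ j = 1 by omega) with rfl | rfl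
      · exact (hH.low _ ℂ (by norm_num)).1
      · exact (hH.low _ ℂ (by norm_num)).2
  have up : (∀ j : ℤ, 2 ≤ j → Zero H (-1) j (Sp ℂ)) → ∀ j : ℤ, 0 < j → Zero H 0 j (Sp QInf) := by
    intro h j hj
    refine ((diag_tfae hH j hj).out 0 1 rfl rfl).1 ?_
    rcases lt_or_ge (j - 1) 2 with h1 | h1
    · exact low _ (by omega)
    · exact h _ h1
  tfae_have 1 → 3 := fun h j hj => h j _ (point_smoothProjective ℂ) (-1) j (by norm_num) le_rfl
  tfae_have 3 → 2 := by
    intro h J
    exact ((main hH J).out 1 2 rfl rfl).1 fun k j hk _ => fields hH (up h) k j hk ℂ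
  tfae_have 2 → 1 := fun h J => ((main hH J).out 0 2 rfl rfl).2 (h J)
  tfae_have 3 → 4 := fun h j hj => up h j (by omega)
  tfae_have 4 → 3 := by
    intro h j hj
    have := ((diag_tfae hH (j + 1) (by omega)).out 0 1 rfl rfl).2 (h _ (by omega))
    rw [add_sub_cancel_right] at this
    exact this
  tfae_have 3 → 5 := by
    intro h m N M hM hdet j hj
    exact open_of hH m (qn_of_qInf hH (up h j hj) m)
      (fun k' j' hk' _ _ K _ _ => fields hH (up h) k' j' hk' K) le_rfl _ hdet
  tfae_have 5 → 4 := by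
    intro h j hj
    exact qInf_of_qn hH fun m => qn_of_sections hH m fun N M hM hdet =>
      h m N M hM hdet j (by omega)
  tfae_finish

/-- one degree and one weight at a time, for smooth varieties -/
theorem smooth_bound (hH : IsMotivicCohomology H) (k j : ℤ) (hk : k < 0)
    (h : ∀ w : ℤ, 2 ≤ w → j - k - 1 ≤ w → w ≤ 2 * j - k - 3 → Zero H (-1) w (Sp ℂ))
    (F : Type) [Field F] [CharZero F] (X : Over (Sp F)) (h1 : Smooth X.hom)
    (h2 : QuasiCompact X.hom) (h3 : IsSeparated X.hom) : Zero H k j X.left := by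
  refine hH.coniveau F k j X h1 h2 h3 fun x p _ => ?_
  have := charZero_residue X x
  rcases lt_or_ge (j - (p : ℤ)) 0 with h0 | h0
  · exact hH.negative _ _ (X.left.residueField x) h0
  rcases lt_or_ge (j - (p : ℤ)) 2 with h4 | h4
  · rcases (show j - (p : ℤ) = 0 ∨ j - (p : ℤ) = 1 by omega) with h5 | h5
    · rw [h5]; exact (hH.low _ (X.left.residueField x) (by omega)).1
    · rw [h5]; exact (hH.low _ (X.left.residueField x) (by omega)).2
  · obtain ⟨s, hs⟩ : ∃ s : ℕ, (s : ℤ) = 2 * p - k := ⟨(2 * (p : ℤ) - k).toNat, by omega⟩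
    have := ((diag_tfae hH (j - k + p) (by omega)).out 0 2 rfl rfl).1
      (h _ (by omega) (by omega) (by omega)) s (by omega) (X.left.residueField x)
    rw [show -(s : ℤ) = k - 2 * p by omega, show j - k + p - (s : ℤ) = j - p by omega] at this
    exact this

end Pool.Agent.L5helper66.BS
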